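import Mathlib
import Pool.Agent.R728.CG.Main

/-!
# The two cover games are not equivalent for player Two

The example: `X` is the set of the countable ordinals with the cofinite topology, `𝒜` is the family of
the countable subsets, and `ℬ` is the family of the sets `B` of order type `ω` with `ρ (sup B) ≤ min B`,
for a suitable regressive function `ρ`.

* Two answers `A` by the complement of a point outside `A`. The set `D` of the points he picks is
  finite, or has an infinite intersection with some `B ∈ ℬ`; so he wins the game for `Γ(X, ℬ)`.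
* In the game for `𝒪(X, ℬ)` Two plays complements of finite sets `C₀, C₁, …`; One can arrange that
  they form an increasing sequence with supremum `δ` and that all points of `C₀` lie below `ρ δ`. Then
  no `B ∈ ℬ` meets all the `Cₙ`.
-/

namespace Pool.Agent.Results.MP_953c35_gt.NotEquivalent

open Set
open Pool.Agent.R728.CG

/-- There are a space `X`, an ideal base `𝒜` (each member lies in an open set different from `X`) and a
family `ℬ` such that Two has a winning strategy, even a winning Markov strategy, in
`G₁(𝒩[𝒜], ¬Γ(X, ℬ))`, but neither a winning strategy nor a winning Markov strategy in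
`G₁(𝒩[𝒜], ¬𝒪(X, ℬ))`. -/
theorem result :
    ∃ (X : Type) (_ : TopologicalSpace X) (A B : Set (Set X)),
      A.Nonempty ∧ IsIdealBase A ∧ Answerable A ∧
      TwoWinsMarkov A (GCov B) ∧ TwoWins A (GCov B) ∧
      ¬ TwoWinsMarkov A (OCov B) ∧ ¬ TwoWins A (OCov B) := by
  classical
  let W : Type := (Cardinal.aleph 1).ord.ToType
  letI : TopologicalSpace W := cofTop W
  have hc : ∀ x : W, (Iio x).Countable := by
    intro x
    have h1 : Cardinal.mk (Iio x) < Cardinal.aleph 1 := Cardinal.mk_Iio_ord_toType x
    exact (Cardinal.countable_iff_lt_aleph_one _).mpr h1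
  have hb : ∀ S : Set W, S.Countable → ∃ b, ∀ s ∈ S, s < b := by
    intro S hS
    by_contra hcon
    push Not at hcon
    have h1 : (univ : Set W) ⊆ ⋃ s ∈ S, Iic s := by
      intro b _
      obtain ⟨s, hs, hbs⟩ := hcon b
      exact mem_iUnion₂.mpr ⟨s, hs, hbs⟩
    have h2 : (univ : Set W).Countable := by
      refine (hS.biUnion fun s _ => ?_).mono h1
      have : Iic s = Iio s ∪ {s} := by
        ext y; simp [le_iff_lt_or_eq]
      rw [this]
      exact (hc s).union (countable_singleton s)
    have h3 := (Cardinal.countable_iff_lt_aleph_one _).mp h2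
    rw [Cardinal.mk_univ, Cardinal.mk_ord_toType] at h3
    exact lt_irrefl _ h3
  -- enumerations of the initial segments
  have hen : ∀ δ : W, ∃ f : ℕ → W, (∀ x, x < δ → ∃ k, f k = x) ∧ (∀ x, x < δ → ∀ k, f k < δ) := by
    intro δ
    by_cases h : (Iio δ).Nonempty
    · obtain ⟨f, hf⟩ := (hc δ).exists_eq_range h
      refine ⟨f, fun x hx => ?_, fun x _ k => ?_⟩
      · have : x ∈ range f := by rw [← hf]; exact hx
        exact this
      · have : f k ∈ Iio δ := by rw [hf]; exact ⟨k, rfl⟩
        exact this
    · refine ⟨fun _ => δ, fun x hx => absurd ⟨x, hx⟩ h, fun x hx => absurd ⟨x, hx⟩ h⟩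
  choose e he he' using hen
  have hex : ∃ k, ¬ TwoWins (ctbl W) (OCov (fam fun δ => e δ k)) := by
    by_contra hcon
    push Not at hcon
    exact no_strategies hc hb e (fun δ x => he δ x) (fun δ x => he' δ x) hcon
  obtain ⟨k, hk⟩ := hex
  have hM : TwoWinsMarkov (ctbl W) (GCov (fam fun δ => e δ k)) :=
    markov hb _ fun δ x hx => he' δ x hx k
  refine ⟨W, inferInstance, ctbl W, fam fun δ => e δ k, ⟨∅, countable_empty⟩, ?_, ?_, hM,
    hM.twoWins, fun h => hk h.twoWins, hk⟩
  · intro a ha b hb'
    exact ⟨a ∪ b, Set.Countable.union ha hb', subset_rfl⟩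
  · intro a ha
    obtain ⟨b, hb'⟩ := hb a ha
    refine ⟨{b}ᶜ, compl_single_open b, ?_, ?_⟩
    · intro x hx h
      rw [mem_singleton_iff] at h
      exact absurd (hb' x hx) (by rw [h]; exact lt_irrefl b)
    · intro h
      have : b ∈ ({b}ᶜ : Set W) := by rw [h]; trivial
      exact this rfl

end Pool.Agent.Results.MP_953c35_gt.NotEquivalent
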